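import Pool.Agent.Lib.helper33.SubBigT
import Pool.Agent.Lib.helper33.SubBigS

/-!
A cycle of length 512 with 14 pendant vertices at each of the vertices 0 and 164 and three
triangles on edges of the short arc.  The triangles weight the subtrees that run through the
whole short arc, and those typically miss a third of the long arc.
-/

open Pool.Agent.Lib.helper33

namespace Pool.Agent.Results.MP_589357_co.MeanBelowAv

/-- The mean subtree order: the average number of vertices over all subgraphs that are trees. -/
noncomputable def meanSubtreeOrder {V : Type*} (G : SimpleGraph V) : ℚ :=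
  ((∑ᶠ H ∈ {H : G.Subgraph | H.coe.IsTree}, H.verts.ncard : ℕ) : ℚ) /
    ({H : G.Subgraph | H.coe.IsTree}.ncard : ℚ)

/-- The average size of a nonempty vertex set inducing a connected subgraph. -/
noncomputable def meanConnectedSet {V : Type*} (G : SimpleGraph V) : ℚ :=
  ((∑ᶠ T ∈ {T : Set V | (G.induce T).Connected}, T.ncard : ℕ) : ℚ) /
    ({T : Set V | (G.induce T).Connected}.ncard : ℚ)

/-- There is a finite connected graph whose mean subtree order is smaller than the average size
of its connected vertex sets. -/
theorem result : ∃ (n : ℕ) (G : SimpleGraph (Fin n)), G.Connected ∧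
    meanSubtreeOrder G < meanConnectedSet G := by
  refine ⟨543, SubTot.gOf SubBig.spec,
    SubTot.conn_gOf SubBig.spec (by norm_num) (by decide +kernel), ?_⟩
  unfold meanSubtreeOrder meanConnectedSet
  rw [SubBig.totT.1, SubBig.totT.2, SubBig.totS.1, SubBig.totS.2]
  norm_num

end Pool.Agent.Results.MP_589357_co.MeanBelowAv
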